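import Pool.Agent.H647R3.AGOrder

set_option autoImplicit false

namespace Pool.Agent.Results.MP_514f39_an.MinimalUNoBasis

open Filter Topology

/-- `x` is a Schauder basis: every vector has exactly one expansion. -/
def IsSchauderBasis {E : Type} [NormedAddCommGroup E] [NormedSpace ℝ E] (x : ℕ → E) : Prop :=
  ∀ v : E, ∃! a : ℕ → ℝ, Tendsto (fun N : ℕ => ∑ n ∈ Finset.range N, a n • x n) atTop (𝓝 v)

/-- `x` is minimal: no member lies in the closed linear span of the others. -/
def IsMinimal {E : Type} [NormedAddCommGroup E] [NormedSpace ℝ E] (x : ℕ → E) : Prop :=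
  ∀ m : ℕ, x m ∉ closure ((Submodule.span ℝ (x '' {n | n ≠ m}) : Submodule ℝ E) : Set E)

/-- The series `∑ a (σ i) • x (σ i)` converges to `v`. -/
def PermSum {E : Type} [NormedAddCommGroup E] [NormedSpace ℝ E] (x : ℕ → E) (a : ℕ → ℝ)
    (σ : Equiv.Perm ℕ) (v : E) : Prop :=
  Tendsto (fun N : ℕ => ∑ i ∈ Finset.range N, a (σ i) • x (σ i)) atTop (𝓝 v)

/-- Property (U): every vector is the sum of a rearranged expansion, and the coefficient
sequence is unique over all rearrangements. -/
def PropU {E : Type} [NormedAddCommGroup E] [NormedSpace ℝ E] (x : ℕ → E) : Prop :=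
  ∀ v : E, (∃ (a : ℕ → ℝ) (σ : Equiv.Perm ℕ), PermSum x a σ v) ∧
    ∀ (a b : ℕ → ℝ) (σ τ : Equiv.Perm ℕ), PermSum x a σ v → PermSum x b τ v → a = b

/-- There is a separable Banach space with a minimal sequence having property (U), no
permutation of which is a Schauder basis. -/
theorem result : ∃ (E : Type) (_ : NormedAddCommGroup E) (_ : NormedSpace ℝ E)
    (_ : CompleteSpace E) (_ : TopologicalSpace.SeparableSpace E) (x : ℕ → E),
    IsMinimal x ∧ PropU x ∧ ∀ τ : Equiv.Perm ℕ, ¬ IsSchauderBasis (fun n => x (τ n)) := by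
  have hcoef : ∀ (a : ℕ → ℝ) (σ : Equiv.Perm ℕ) (v : H647R3.AG.X),
      PermSum H647R3.AG.e a σ v → ∀ j, a j = H647R3.AG.e' j v := by
    intro a σ v h j
    have h1 : Tendsto (fun N : ℕ => H647R3.AG.e' j (∑ i ∈ Finset.range N, a (σ i) • H647R3.AG.e (σ i)))
        atTop (𝓝 (H647R3.AG.e' j v)) := ((H647R3.AG.e' j).continuous.tendsto v).comp h
    have h2 : ∀ N, σ.symm j < N →
        H647R3.AG.e' j (∑ i ∈ Finset.range N, a (σ i) • H647R3.AG.e (σ i)) = a j := by
      intro N hN
      rw [map_sum]
      simp_rw [map_smul, H647R3.AG.biorth, smul_eq_mul, mul_ite, mul_one, mul_zero]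
      rw [Finset.sum_eq_single_of_mem (σ.symm j) (Finset.mem_range.2 hN)]
      · simp
      · intro b _ hb
        rw [if_neg]
        rintro rfl
        exact hb (by simp)
    have h3 : Tendsto (fun N : ℕ => H647R3.AG.e' j (∑ i ∈ Finset.range N, a (σ i) • H647R3.AG.e (σ i)))
        atTop (𝓝 (a j)) := by
      refine tendsto_atTop_of_eventually_const (i₀ := σ.symm j + 1) (fun N hN => ?_)
      exact h2 N (by omega)
    exact tendsto_nhds_unique h3 h1
  have hsep : TopologicalSpace.SeparableSpace H647R3.AG.X := by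
    rw [← TopologicalSpace.isSeparable_univ_iff]
    have h1 : TopologicalSpace.IsSeparable (Set.range H647R3.AG.e) :=
      (Set.countable_range _).isSeparable
    have h2 := (h1.span (R := ℝ)).closure
    rwa [H647R3.AG.dense_span.closure_eq] at h2
  refine ⟨H647R3.AG.X, inferInstance, inferInstance, inferInstance, hsep, H647R3.AG.e, ?_, ?_, ?_⟩
  · intro m hm
    have h1 : closure ((Submodule.span ℝ (H647R3.AG.e '' {n | n ≠ m}) : Submodule ℝ H647R3.AG.X) :
        Set H647R3.AG.X) ⊆ {v | H647R3.AG.e' m v = 0} := by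
      apply closure_minimal
      · have : Submodule.span ℝ (H647R3.AG.e '' {n | n ≠ m}) ≤ LinearMap.ker (H647R3.AG.e' m).toLinearMap := by
          rw [Submodule.span_le]
          rintro _ ⟨n, hn, rfl⟩
          change H647R3.AG.e' m (H647R3.AG.e n) = 0
          rw [H647R3.AG.biorth, if_neg (fun h => hn h.symm)]
        exact this
      · exact isClosed_singleton.preimage (H647R3.AG.e' m).continuous
    have h2 : H647R3.AG.e' m (H647R3.AG.e m) = 0 := h1 hm
    rw [H647R3.AG.biorth, if_pos rfl] at h2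
    exact one_ne_zero h2
  · intro v
    refine ⟨?_, ?_⟩
    · obtain ⟨σ, hσ⟩ := H647R3.AG.exists_order v
      exact ⟨fun j => H647R3.AG.e' j v, σ, hσ⟩
    · intro a b σ τ ha hb
      funext j
      rw [hcoef a σ v ha j, hcoef b τ v hb j]
  · intro τ hτ
    refine H647R3.AG.no_order τ (fun v => ?_)
    obtain ⟨a, ha, -⟩ := hτ v
    -- the coefficients are forced
    have h1 : ∀ k, a k = H647R3.AG.e' (τ k) v := by
      intro k
      have h2 := hcoef (fun j => a (τ.symm j)) τ v (by
        unfold PermSum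
        simpa using ha) (τ k)
      simpa using h2
    have h3 : (fun N : ℕ => ∑ n ∈ Finset.range N, a n • H647R3.AG.e (τ n))
        = fun N : ℕ => ∑ n ∈ Finset.range N, H647R3.AG.e' (τ n) v • H647R3.AG.e (τ n) := by
      funext N
      refine Finset.sum_congr rfl fun n _ => ?_
      rw [h1 n]
    rw [← h3]
    exact ha

end Pool.Agent.Results.MP_514f39_an.MinimalUNoBasis
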